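import Pool.Agent.K6.H47.HW.Neg2
import Pool.Agent.Y524H.Check

/-!
# Equivalence up to Hurwitz moves and global conjugation is undecidable (Q2)

The surface is the closed oriented surface `Σ` of genus six; mapping classes are outer
automorphisms of its fundamental group `Π = ⟨a_i, b_i | ∏ [a_i, b_i]⟩` (Dehn, Nielsen, Baer). The
input of an algorithm is a pair of lists of names of positive Dehn twists; a name is a word in
Lickorish's twists (which generate the mapping class group) together with one of the types `0`
(nonseparating) and `1, 2, 3` (separating). The surface, the names and the first two steps of the
construction below are those of the answer to Q1 in the starting file `HurwitzUndecidable`, where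
the factorizations are distinguished by the group generated by the twists; this is not possible for
Q2, as the factorizations used there are conjugate.

Outline of the proof. Let `U` be a finitely presented group with two generators and undecidable
word problem. For a word `w` there is a finitely presented group `Q_w` with two generators (Adian,
Rabin, Miller) and a word `r_w` such that `Q_w` is trivial after adding the relation `r_w`, `r_w` is
trivial in `Q_w` if `w = 1` in `U`, and `Q_w` is not trivial if `w ≠ 1` in `U`; the last statement
is proved with an amalgamated product of two groups of permutations and ping-pong.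

Let `τ_w` be the product of the positive relation `R₀ = θ θ` (Matsumoto, Cadavid, Korkmaz) and of
conjugates `s R₀ s⁻¹`, where the mapping classes `s` of the left half preserve the homomorphism
`Φ : Π → Q_w`, which folds the two halves of `Σ`. If `r = 1` in `Q_w`, then the group generated by
the twists of `τ_w` contains a certain commutator `δ_r`, and `(τ_w, R₀)` and `(τ_w, δ_r R₀ δ_r⁻¹)`
are Hurwitz equivalent.

The invariant: a factorization is good if there is a nontrivial homomorphism `ψ` from `Π` to some
group which is preserved up to conjugation by all its twists, and preserved by all strict lifts
of its nonseparating twists, where a strict lift is an automorphism of `Π` in the given outer class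
which is conjugate in `Aut(Π)` to the automorphism `b_0 ↦ b_0 a_0`. This is invariant under Hurwitz
moves and under conjugation by all outer automorphisms. If `ψ` is such a homomorphism for
`(τ_w, δ_r R₀ δ_r⁻¹)`, `r = r_w`, then it is preserved by all `s` and by `δ_r`, and this implies that
it factors through `Q_w / r_w = 1`. Conversely, let `Q_w ≠ 1`. Then `Φ` has the required properties
for `(τ_w, R₀)`: it factors through surjections `ρ` of `Π` onto a free group of rank three which kill
the curve of the given twist. If a strict lift is the composition of the obvious lift and the
conjugation by `y`, then `Π` is generated by elements `x` such that `ρ(x)` and `ρ(y)` commute and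
one more element, hence `ρ(y) = 1`, as centralizers in free groups are cyclic.
-/

set_option autoImplicit false

namespace Pool.Agent.Results.MP_1b0330_gt.GlobalConjugationUndecidable

open Pool.Agent.Y524H
open Pool.Agent.K6.H47.HW (EquivConj reduction)

/-- The mapping class group of the closed surface of genus six, generated by Lickorish's twists, as
a subgroup of the outer automorphism group of the fundamental group. -/
def Map6 : Subgroup OutPi :=
  Subgroup.closure (Set.range fun l : Lick => (QuotientGroup.mk (twist l) : OutPi))

/-- (1) No algorithm decides which pairs of factorizations of the identity into positive Dehn twists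
in the mapping class group of the closed surface of genus six are equivalent up to Hurwitz moves
and global conjugation. (2) Indeed, there is no algorithm which returns `true` for all pairs of
such factorizations which are Hurwitz equivalent, and `false` for all pairs which are not equivalent
up to Hurwitz moves and global conjugation by outer automorphisms. -/
theorem result :
    (¬ ∃ f : List Entry × List Entry → Bool, Computable f ∧ ∀ x y : List Entry,
      IsFactorization x → IsFactorization y →
        (f (x, y) = true ↔ EquivConj Map6 (x.map dehn) (y.map dehn))) ∧
    ¬ ∃ f : List Entry × List Entry → Bool, Computable f ∧ ∀ x y : List Entry,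
      IsFactorization x → IsFactorization y →
        (HurwitzEquiv (x.map dehn) (y.map dehn) → f (x, y) = true) ∧
        (¬ EquivConj (⊤ : Subgroup OutPi) (x.map dehn) (y.map dehn) → f (x, y) = false) := by
  have h2 : ¬ ∃ f : List Entry × List Entry → Bool, Computable f ∧ ∀ x y : List Entry,
      IsFactorization x → IsFactorization y →
        (HurwitzEquiv (x.map dehn) (y.map dehn) → f (x, y) = true) ∧
        (¬ EquivConj (⊤ : Subgroup OutPi) (x.map dehn) (y.map dehn) → f (x, y) = false) := by
    rintro ⟨f, hf, hfx⟩
    obtain ⟨X, Y, P, hX, hY, hP, fX, fY, hyes, hno⟩ := reduction
    apply hP
    have hc : Computable (fun n => f (X n, Y n)) := hf.comp (Computable.pair hX hY)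
    have hcp : ComputablePred (fun n => f (X n, Y n) = true) :=
      ⟨fun n => inferInstance, hc.of_eq fun n => by simp⟩
    refine hcp.of_eq fun n => ⟨fun h => ?_, fun h => (hfx _ _ (fX n) (fY n)).1 (hyes n h)⟩
    by_contra hn
    have h3 := (hfx _ _ (fX n) (fY n)).2 (hno n hn)
    rw [h] at h3
    exact Bool.noConfusion h3
  refine ⟨?_, h2⟩
  rintro ⟨f, hf, hfx⟩
  refine h2 ⟨f, hf, fun x y hx hy => ⟨fun h => ?_, fun h => ?_⟩⟩
  · exact (hfx x y hx hy).2 (EquivConj.of_hurwitz _ h)
  · rw [← Bool.not_eq_true, hfx x y hx hy]
    exact fun h' => h (h'.mono le_top)

end Pool.Agent.Results.MP_1b0330_gt.GlobalConjugationUndecidable
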